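import Mathlib
import Pool.Agent.Lib.MP_e4dd62_an.Main

open MeasureTheory

namespace Pool.Agent.Results.MP_e4dd62_an.SeparationPoint

/-- `τ` is positive definite on `[-1,1]`: it is the restriction to `[-1,1]` of the Fourier
transform `ξ ↦ ∫ e^{i ξ x} dμ(x)` of a finite nonnegative Borel measure `μ` on `ℝ`. -/
def PosDefOnUnitInterval (τ : ℝ → ℝ) : Prop :=
  ∃ μ : Measure ℝ, IsFiniteMeasure μ ∧
    ∀ ξ ∈ Set.Icc (-1 : ℝ) 1, ∫ x, Complex.exp (Complex.I * ξ * x) ∂μ = (τ ξ : ℂ)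

/-- `β₀ = sup {α > 0 : 1 - |ξ|^α is positive definite on [-1,1]}`. -/
noncomputable def beta0 : ℝ :=
  sSup {α : ℝ | 0 < α ∧ PosDefOnUnitInterval fun ξ => 1 - |ξ| ^ α}

/-- `ρ(α) = ∫_0^{3π/2} cos t / t^(2-α) dt`. -/
noncomputable def rho (α : ℝ) : ℝ :=
  ∫ t in (0 : ℝ)..(3 * Real.pi / 2), Real.cos t / t ^ (2 - α)

/-- Romanov's number `α₀`, the root of `ρ` in `(1,2)`, is strictly smaller than `β₀`. -/
theorem result : ∀ α₀ ∈ Set.Ioo (1 : ℝ) 2, rho α₀ = 0 → α₀ < beta0 := by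
  intro α₀ hα₀ hρ
  have hR : Pool.Agent.Lib.MP_e4dd62_an.R α₀ (3 * Real.pi / 2) = 0 := by
    rw [← hρ]
    unfold Pool.Agent.Lib.MP_e4dd62_an.R rho
    refine intervalIntegral.integral_congr fun t ht => ?_
    rw [Set.uIcc_of_le (by linarith [Real.pi_pos])] at ht
    have : α₀ - 2 = -(2 - α₀) := by ring
    rw [this, Real.rpow_neg ht.1, div_eq_mul_inv, mul_comm]
  obtain ⟨α, hlt, hα⟩ := Pool.Agent.Lib.MP_e4dd62_an.exists_gt_isFT hα₀.1 hα₀.2 hR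
  refine hlt.trans_le (le_csSup ⟨2, fun β hβ => ?_⟩ ⟨by linarith [hα₀.1], hα⟩)
  exact Pool.Agent.Lib.MP_e4dd62_an.le_two_of_isFT hβ.1 hβ.2

end Pool.Agent.Results.MP_e4dd62_an.SeparationPoint
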